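import Pool.Agent.Helper42.PQ.Classification
import Pool.Agent.Helper42.PQ.E33
import Pool.Agent.Helper42.PQ.M9
import Pool.Agent.Helper42.PQ.PUR
import Pool.Agent.Helper42.PQ.NOD
import Pool.Agent.Helper32.PQ.T3
import Pool.Agent.Helper32.PQ.T5
import Pool.Agent.Helper48.PQ.C12
import Pool.Agent.Helper71.PQ.F3
import Pool.Agent.Helper71.PQ.T2
import Pool.Agent.Helper71.PQ.T4
import Pool.Agent.Helper72.PQ.MAG
import Pool.Agent.Helper72.PQ.T1

set_option autoImplicit false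

/-!
The pinched Veronese algebras `PV(n, d, s)` which are quadratic: complete answer to Q1.

`Gen n d s` is the set of exponent vectors of the generating monomials (degree `d`, at most `s`
variables), `Phi` the presentation map `t_m ↦ m`, and `IsQuadratic K n d s` says that the kernel
of `Phi` is generated by its homogeneous elements of degree 2 (all in
`Pool.Agent.Helper857.PVa`).
-/

namespace Pool.Agent.Results.MP_e26c3f_al.QuadraticClassification

open Pool.Agent Pool.Agent.Helper42.PQ Pool.Agent.Helper857.PV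

theorem result (K : Type) [Field K] (n d s : ℕ) (_hn : 1 ≤ n) (hd : 1 ≤ d) (hs : 1 ≤ s) :
    IsQuadratic K n d s ↔
      (s = 1 ∨ n ≤ s ∨ d ≤ s ∨
       (s = 2 ∧ (n = 3 ∨ d ≤ 4)) ∨
       (s = 3 ∧ (n ≤ 7 ∨ d ≤ 6 ∨ (n ≤ 11 ∧ d ≤ 8) ∨ (n = 8 ∧ d = 9))) ∨
       (4 ≤ s ∧ (n + 2 ≤ 3 * s ∨
          (d ≤ 2 * s ∧ (n + 1 ≤ 3 * s ∨ d ≤ s + 9 ∨ (d = s + 10 ∧ n + 4 ≤ 6 * s) ∨
            (d = s + 11 ∧ n + 2 ≤ 4 * s)))))) := by
  have m4 : S_M4 := Helper95.PQ.M4.main
  have h9 : S_M9 := M9.main m4 (Helper95.PQ.M5.main m4) E33.main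
  have hG : S_GRP := Helper52.PQ.GRP.main
  have hR : S_REAL := All.sREAL
  have hN : S_NODE := All.sNODE
  have hSA : S_SAME := Helper65.PQ.SAME.main All.sL
  have t1 : S_T1 := Helper72.PQ.T1.main hG hR All.sSPOS hN PUR.main NOD.main
  have t2 : S_T2 := Helper71.PQT2.main hG hR All.sTWO PUR.main Helper72.PQ.MAG.main
  have t3 : S_T3 := Helper32.PQ.T3.main hN hR hSA All.sSPOS NOD.main Helper48.PQ.C12.c1
    Helper48.PQ.C12.c2
  have t4 : S_T4 := Helper71.PQT4.main hG hR hN NOD.main PUR.main t3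
  have t5 : S_T5 := Helper32.PQ.T5.main hG hR hN PUR.main Helper71.PQF3.main
  exact Classification.main h9 (T6.main All.sL t1 t2 t4 t5) K n d s hd hs

end Pool.Agent.Results.MP_e26c3f_al.QuadraticClassification
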